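import Pool.Agent.L0h32.LT.Stm

set_option autoImplicit false

namespace Pool.Agent.LLead.LT

open Finset Pool.Agent.L0h32.LT

variable {ι : Type} [Fintype ι]

/-- the linear map given by `y ↦ (y ⬝ᵥ B j)_j` -/
noncomputable def dots {r : ℕ} (B : Fin r → (ι → ZMod 2)) : (ι → ZMod 2) →ₗ[ZMod 2] (Fin r → ZMod 2) where
  toFun y := fun j => B j ⬝ᵥ y
  map_add' y z := by funext j; simp [dotProduct_add]
  map_smul' a y := by funext j; simp [dotProduct_smul]

lemma exists_Y (V : Submodule (ZMod 2) (ι → ZMod 2)) (s : ℕ)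
    (h : Module.finrank (ZMod 2) V + s + 1 ≤ Fintype.card ι) :
    ∃ Y : Fin (s + 1) → (ι → ZMod 2), LinearIndependent (ZMod 2) Y ∧ ∀ j, ∀ v ∈ V, Y j ⬝ᵥ v = 0 := by
  classical
  set r := Module.finrank (ZMod 2) V with hr
  let b := Module.finBasis (ZMod 2) V
  let B : Fin r → (ι → ZMod 2) := fun j => (b j : ι → ZMod 2)
  have h1 := LinearMap.finrank_range_add_finrank_ker (dots B)
  have h2 : Module.finrank (ZMod 2) (LinearMap.range (dots B)) ≤ r := by
    have := Submodule.finrank_le (LinearMap.range (dots B))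
    simpa using this
  have h3 : s + 1 ≤ Module.finrank (ZMod 2) (LinearMap.ker (dots B)) := by
    rw [Module.finrank_fintype_fun_eq_card] at h1
    omega
  obtain ⟨f, hf⟩ := exists_linearIndependent_of_le_finrank h3
  refine ⟨fun j => (f j : ι → ZMod 2), ?_, ?_⟩
  · exact hf.map' (LinearMap.ker (dots B)).subtype (Submodule.ker_subtype _)
  · intro j v hv
    have h4 : ∀ i, B i ⬝ᵥ (f j : ι → ZMod 2) = 0 := by
      intro i
      have := LinearMap.mem_ker.1 (f j).2
      exact congrFun this i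
    have h5 : v = ∑ i, (b.repr ⟨v, hv⟩ i) • B i := by
      have h6 := congrArg (V.subtype) (b.sum_repr ⟨v, hv⟩)
      rw [map_sum] at h6
      simp only [map_smul, Submodule.subtype_apply] at h6
      exact h6.symm
    rw [h5, dotProduct_comm, sum_dotProduct]
    apply sum_eq_zero
    intro i _
    rw [smul_dotProduct, h4, smul_zero]

lemma card_ker {s : ℕ} (Y : Fin (s + 1) → (ι → ZMod 2)) (hY : LinearIndependent (ZMod 2) Y) :
    Nat.card (LinearMap.ker (dots Y)) * 2 ^ (s + 1) = 2 ^ Fintype.card ι := by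
  classical
  have h1 := LinearMap.finrank_range_add_finrank_ker (dots Y)
  have h2 : Module.finrank (ZMod 2) (LinearMap.range (dots Y)) = s + 1 := by
    have h3 : dots Y = Matrix.mulVecLin (Matrix.of Y) := by
      ext v j
      simp [dots, Matrix.mulVecLin, Matrix.mulVec]
    rw [h3]
    have h4 : (Matrix.of Y).rank = s + 1 := by
      have := LinearIndependent.rank_matrix (M := Matrix.of Y) hY
      simpa using this
    exact h4
  rw [Module.finrank_fintype_fun_eq_card] at h1
  have h5 : Nat.card (LinearMap.ker (dots Y)) =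
      2 ^ Module.finrank (ZMod 2) (LinearMap.ker (dots Y)) := by
    have := Module.natCard_eq_pow_finrank (K := ZMod 2) (V := LinearMap.ker (dots Y))
    rw [this]
    simp
  rw [h5, ← pow_add]
  congr 1
  omega

theorem t_RNK : S_RNK := by
  classical
  intro n m s ι _ hnm
  by_contra hcon
  push Not at hcon
  set N := Fintype.card ι with hN
  let Idx : Finset (Finset (Fin n) × (Fin (s + 1) → (ι → ZMod 2))) :=
    univ.filter fun P => m ≤ P.1.card ∧ LinearIndependent (ZMod 2) P.2
  let kr : (Fin (s + 1) → (ι → ZMod 2)) → Finset (ι → ZMod 2) := fun Y =>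
    univ.filter fun v => ∀ j, Y j ⬝ᵥ v = 0
  let Bad : Finset (Fin n) × (Fin (s + 1) → (ι → ZMod 2)) → Finset (Fin n → (ι → ZMod 2)) :=
    fun P => Fintype.piFinset fun i => if i ∈ P.1 then kr P.2 else univ
  have hcov : (univ : Finset (Fin n → (ι → ZMod 2))) ⊆ Idx.biUnion Bad := by
    intro M _
    obtain ⟨A, hA, hr⟩ := hcon M
    obtain ⟨Y, hY, hv⟩ := exists_Y (Submodule.span (ZMod 2) (M '' A)) s (by omega)
    rw [mem_biUnion]
    refine ⟨(A, Y), mem_filter.2 ⟨mem_univ _, hA, hY⟩, ?_⟩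
    rw [Fintype.mem_piFinset]
    intro i
    simp only
    split_ifs with hi
    · refine mem_filter.2 ⟨mem_univ _, fun j => hv j _ (Submodule.subset_span ⟨i, hi, rfl⟩)⟩
    · exact mem_univ _
  have hW : Fintype.card (ι → ZMod 2) = 2 ^ N := by simp [hN]
  have hkr : ∀ Y : Fin (s + 1) → (ι → ZMod 2), LinearIndependent (ZMod 2) Y →
      (kr Y).card * 2 ^ (s + 1) = 2 ^ N := by
    intro Y hY
    rw [hN, ← card_ker Y hY]
    congr 1
    rw [Nat.card_eq_fintype_card, Fintype.card_subtype]
    congr 1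
    ext v
    simp only [kr, mem_filter, mem_univ, true_and, LinearMap.mem_ker, dots, LinearMap.coe_mk,
      AddHom.coe_mk]
    exact ⟨fun h => funext h, fun h j => congrFun h j⟩
  have hbad : ∀ P ∈ Idx, (Bad P).card * 2 ^ ((s + 1) * m) ≤ (2 ^ N) ^ n := by
    intro P hP
    obtain ⟨-, hA, hY⟩ := mem_filter.1 hP
    have h1 : (Bad P).card = (kr P.2).card ^ P.1.card * (2 ^ N) ^ (n - P.1.card) := by
      simp only [Bad]
      rw [Fintype.card_piFinset]
      have h2 : ∀ i : Fin n, (if i ∈ P.1 then kr P.2 else univ).card =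
          if i ∈ P.1 then (kr P.2).card else 2 ^ N := by
        intro i
        split_ifs
        · rfl
        · rw [card_univ, hW]
      rw [prod_congr rfl fun i _ => h2 i, prod_ite, prod_const, prod_const]
      congr 2
      · congr 1; ext i; simp
      · rw [filter_not, card_sdiff_of_subset (filter_subset _ _), card_univ, Fintype.card_fin]
        congr 2; ext i; simp
    have hAn : P.1.card ≤ n := by simpa using card_le_univ P.1
    calc (Bad P).card * 2 ^ ((s + 1) * m)
        ≤ (Bad P).card * 2 ^ ((s + 1) * P.1.card) := by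
          apply Nat.mul_le_mul_left
          exact Nat.pow_le_pow_right (by norm_num) (Nat.mul_le_mul_left _ hA)
      _ = ((kr P.2).card * 2 ^ (s + 1)) ^ P.1.card * (2 ^ N) ^ (n - P.1.card) := by
          rw [h1, mul_pow, ← pow_mul 2 (s + 1)]; ring
      _ = (2 ^ N) ^ n := by
          rw [hkr _ hY, ← pow_add]; congr 1; omega
  have hidx : Idx.card ≤ 2 ^ n * (2 ^ N) ^ (s + 1) := by
    calc Idx.card ≤ (univ : Finset (Finset (Fin n) × (Fin (s + 1) → (ι → ZMod 2)))).card :=
          card_filter_le _ _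
      _ = _ := by
          rw [card_univ, Fintype.card_prod, Fintype.card_finset, Fintype.card_fin,
            Fintype.card_fun, hW, Fintype.card_fin]
  have hall : (2 ^ N) ^ n * 2 ^ ((s + 1) * m) ≤ (2 ^ n * (2 ^ N) ^ (s + 1)) * (2 ^ N) ^ n := by
    calc (2 ^ N) ^ n * 2 ^ ((s + 1) * m)
        = (univ : Finset (Fin n → (ι → ZMod 2))).card * 2 ^ ((s + 1) * m) := by
          rw [card_univ, Fintype.card_fun, hW, Fintype.card_fin]
      _ ≤ (Idx.biUnion Bad).card * 2 ^ ((s + 1) * m) :=
          Nat.mul_le_mul_right _ (card_le_card hcov)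
      _ ≤ (∑ P ∈ Idx, (Bad P).card) * 2 ^ ((s + 1) * m) :=
          Nat.mul_le_mul_right _ card_biUnion_le
      _ = ∑ P ∈ Idx, (Bad P).card * 2 ^ ((s + 1) * m) := by rw [sum_mul]
      _ ≤ ∑ P ∈ Idx, (2 ^ N) ^ n := sum_le_sum hbad
      _ = Idx.card * (2 ^ N) ^ n := by rw [sum_const, smul_eq_mul]
      _ ≤ _ := Nat.mul_le_mul_right _ hidx
  have h2 : 2 ^ ((s + 1) * m) ≤ 2 ^ n * (2 ^ N) ^ (s + 1) := by
    have hp : 0 < (2 ^ N) ^ n := by positivity
    apply Nat.le_of_mul_le_mul_left _ hp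
    calc (2 ^ N) ^ n * 2 ^ ((s + 1) * m) ≤ _ := hall
      _ = _ := by ring
  rw [← pow_mul, ← pow_add] at h2
  have h3 := (Nat.pow_le_pow_iff_right (by norm_num)).1 h2
  omega

end Pool.Agent.LLead.LT
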