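import Pool.Agent.L0h32.LT.Stm

set_option autoImplicit false

namespace Pool.Agent.LLead.LT

open Finset Pool.Agent.L0h32.LT

theorem t_CNT : S_CNT := by
  classical
  intro n e b
  have h1 : (univ.filter fun P : Finset (Fin n) × Finset (Fin n) =>
      P.2 ⊆ P.1 ∧ P.1.card ≤ e).card =
      ∑ P : Finset (Fin n), if P.card ≤ e then 2 ^ P.card else 0 := by
    rw [card_filter, Fintype.sum_prod_type]
    apply sum_congr rfl
    intro P _
    simp only
    by_cases hP : P.card ≤ e
    · simp only [hP, and_true, if_true]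
      rw [← card_filter, ← card_powerset]
      congr 1
      ext Q
      simp
    · simp [hP]
  rw [h1, sum_mul]
  calc ∑ P : Finset (Fin n), (if P.card ≤ e then 2 ^ P.card else 0) * 2 ^ (b * n)
      ≤ ∑ P : Finset (Fin n), 2 ^ (b * e) * (2 ^ P.card * (2 ^ b) ^ (n - P.card)) := by
        apply sum_le_sum
        intro P _
        have hPn : P.card ≤ n := by simpa using card_le_univ P
        split_ifs with hP
        · rw [← pow_mul, ← pow_add, ← pow_add, ← pow_add]
          apply Nat.pow_le_pow_right (by norm_num)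
          have h2 : b * n = b * P.card + b * (n - P.card) := by
            rw [← Nat.mul_add]; congr 1; omega
          have h3 : b * P.card ≤ b * e := Nat.mul_le_mul_left _ hP
          omega
        · rw [zero_mul]; exact Nat.zero_le _
    _ = 2 ^ (b * e) * (2 ^ b + 2) ^ n := by
        rw [← mul_sum]
        congr 1
        have h4 := Finset.sum_pow_mul_eq_add_pow (2 : ℕ) (2 ^ b) (univ : Finset (Fin n))
        rw [powerset_univ, card_univ, Fintype.card_fin] at h4
        rw [h4, add_comm]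

lemma gam_poly (J : ℕ) : ∀ i, ∃ C d : ℕ, ∀ E, 1 ≤ E → gam J E i ≤ C * E ^ d := by
  intro i
  induction i with
  | zero => exact ⟨2 * J, 0, fun E _ => by simp [gam]⟩
  | succ i ih =>
    obtain ⟨C, d, h⟩ := ih
    refine ⟨2 * J * C * (C * 2 ^ (J + 2)) ^ J, 1 + d + (d + 1) * J, fun E hE => ?_⟩
    have h1 := h E hE
    calc gam J E (i + 1) = 2 * J * E * gam J E i * (gam J E i * 2 ^ (J + 2) * E) ^ J := rfl
      _ ≤ 2 * J * E * (C * E ^ d) * ((C * E ^ d) * 2 ^ (J + 2) * E) ^ J := by gcongr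
      _ = _ := by
          have : (C * E ^ d * 2 ^ (J + 2) * E) ^ J = (C * 2 ^ (J + 2)) ^ J * E ^ ((d + 1) * J) := by
            rw [show C * E ^ d * 2 ^ (J + 2) * E = (C * 2 ^ (J + 2)) * E ^ (d + 1) by
              rw [pow_succ]; ring, mul_pow, ← pow_mul]
          rw [this]
          generalize (C * 2 ^ (J + 2)) ^ J = q
          rw [pow_add E (1 + d), pow_add E 1 d, pow_one]
          ring

theorem t_PAR : S_PAR := by
  intro J c _
  obtain ⟨C, d, h⟩ := gam_poly J J
  set K := c * (C + 1) with hK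
  set L := c * d with hL
  set a := K + 2 * L with ha
  refine ⟨2 ^ (2 * a), Nat.one_le_two_pow, ?_⟩
  have h1 := h (2 ^ (2 * a)) Nat.one_le_two_pow
  have h2 : gam J (2 ^ (2 * a)) J < 2 ^ (C + d * (2 * a)) := by
    calc gam J (2 ^ (2 * a)) J ≤ C * (2 ^ (2 * a)) ^ d := h1
      _ < 2 ^ C * (2 ^ (2 * a)) ^ d := by
          apply Nat.mul_lt_mul_of_pos_right Nat.lt_two_pow_self
          positivity
      _ = _ := by rw [← pow_mul, ← pow_add]; congr 1; ring
  have h3 : Nat.log 2 (gam J (2 ^ (2 * a)) J) < C + d * (2 * a) ∨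
      gam J (2 ^ (2 * a)) J = 0 := by
    by_cases h0 : gam J (2 ^ (2 * a)) J = 0
    · exact Or.inr h0
    · exact Or.inl (Nat.log_lt_of_lt_pow h0 h2)
  have h4 : Nat.log 2 (gam J (2 ^ (2 * a)) J) ≤ C + d * (2 * a) := by
    rcases h3 with h3 | h3
    · exact h3.le
    · rw [h3]; simp
  have h5 : a + 1 ≤ 2 ^ a := Nat.lt_two_pow_self
  have h6 : (a + 1) * (a + 1) ≤ 2 ^ (2 * a) := by
    rw [two_mul, pow_add]
    exact Nat.mul_le_mul h5 h5
  calc c * (Nat.log 2 (gam J (2 ^ (2 * a)) J) + 1) ≤ c * (C + d * (2 * a) + 1) := by gcongr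
    _ = K + 2 * L * a := by rw [hK, hL]; ring
    _ ≤ (a + 1) * (a + 1) := by
        have : 2 * L * a ≤ a * a := Nat.mul_le_mul_right _ (by omega)
        nlinarith
    _ ≤ _ := h6

end Pool.Agent.LLead.LT
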