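import Pool.Agent.L0h32.LT.Stm

set_option autoImplicit false

namespace Pool.Agent.LLead.LT

open Finset Polynomial Pool.Agent.L0h32.LT

/-! ### Linear algebra -/

section lin

variable {F : Type} [Field F] {ι : Type} [Fintype ι]

lemma ortho (V W : Submodule F (ι → F)) (h : ∀ v ∈ V, ∀ w ∈ W, v ⬝ᵥ w = 0) :
    Module.finrank F V + Module.finrank F W ≤ Fintype.card ι := by
  classical
  set r := Module.finrank F V with hr
  let b := Module.finBasis F V
  let B : Matrix (Fin r) ι F := Matrix.of fun j => (b j : ι → F)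
  have h1 : B.rank = r := by
    have h2 : LinearIndependent F B.row :=
      b.linearIndependent.map' V.subtype (Submodule.ker_subtype _)
    have := LinearIndependent.rank_matrix h2
    simpa using this
  have h3 := LinearMap.finrank_range_add_finrank_ker B.mulVecLin
  rw [Module.finrank_fintype_fun_eq_card] at h3
  have h4 : Module.finrank F (LinearMap.range B.mulVecLin) = r := h1
  have h5 : W ≤ LinearMap.ker B.mulVecLin := by
    intro w hw
    rw [LinearMap.mem_ker]
    funext j
    simp only [Matrix.mulVecLin_apply, Pi.zero_apply]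
    exact h _ (b j).2 w hw
  have h6 := Submodule.finrank_mono h5
  omega

lemma coords (d : ℕ) : ∀ V : Submodule F (ι → F), Module.finrank F V ≤ d →
    ∃ T : Finset ι, T.card ≤ d ∧ ∀ u ∈ V, (∀ t ∈ T, u t = 0) → u = 0 := by
  classical
  induction d with
  | zero =>
    intro V hV
    refine ⟨∅, le_rfl, fun u hu _ => ?_⟩
    have : V = ⊥ := Submodule.finrank_eq_zero.1 (Nat.le_zero.1 hV)
    rw [this] at hu
    exact (Submodule.mem_bot F).1 hu
  | succ d ih =>
    intro V hV
    by_cases hb : V = ⊥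
    · refine ⟨∅, by simp, fun u hu _ => ?_⟩
      rw [hb] at hu
      exact (Submodule.mem_bot F).1 hu
    · obtain ⟨u, hu, hu0⟩ := (Submodule.ne_bot_iff V).1 hb
      obtain ⟨t, ht⟩ := Function.ne_iff.1 hu0
      let V' : Submodule F (ι → F) := V ⊓ LinearMap.ker (LinearMap.proj t : (ι → F) →ₗ[F] F)
      have hlt : V' < V := by
        refine lt_of_le_of_ne inf_le_left fun he => ht ?_
        have : u ∈ V' := he ▸ hu
        exact (LinearMap.mem_ker.1 this.2)
      have h1 := Submodule.finrank_lt_finrank_of_lt hlt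
      obtain ⟨T, hT, hT'⟩ := ih V' (by omega)
      refine ⟨insert t T, (card_insert_le _ _).trans (by omega), fun v hv hv0 => ?_⟩
      apply hT' v
      · exact ⟨hv, LinearMap.mem_ker.2 (hv0 t (mem_insert_self _ _))⟩
      · exact fun t' ht' => hv0 t' (mem_insert_of_mem ht')

end lin

/-! ### The vectors -/

variable {n K : ℕ}

/-- the vector of an input -/
def vec (M : Fin n → (Fin 6 × Fin K → ZMod 2)) (x : Inp n) : Fin 6 × Fin K → ZMod 2 :=
  ∑ i, if x i then M i else 0

/-- the polynomials of a vector -/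
noncomputable def pl (v : Fin 6 × Fin K → ZMod 2) (c : Fin 6) : (ZMod 2)[X] :=
  ∑ a : Fin K, C (v (c, a)) * X ^ (a : ℕ)

lemma pl_add (v w : Fin 6 × Fin K → ZMod 2) (c : Fin 6) : pl (v + w) c = pl v c + pl w c := by
  unfold pl
  rw [← sum_add_distrib]
  apply sum_congr rfl
  intro a _
  rw [Pi.add_apply, C_add]
  ring

lemma pl_zero (c : Fin 6) : pl (0 : Fin 6 × Fin K → ZMod 2) c = 0 := by
  unfold pl
  simp

lemma frm_eq (M : Fin n → (Fin 6 × Fin K → ZMod 2)) (x : Inp n) (c : Fin 6) :
    frm M x c = pl (vec M x) c := by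
  unfold frm vec
  have h : ∀ s : Finset (Fin n), pl (∑ i ∈ s, if x i then M i else 0) c =
      ∑ i ∈ s, if x i then ∑ a : Fin K, C (M i (c, a)) * X ^ (a : ℕ) else 0 := by
    classical
    intro s
    induction s using Finset.induction_on with
    | empty => simp [pl_zero]
    | insert i s hi ih =>
      rw [sum_insert hi, sum_insert hi, pl_add, ih]
      congr 1
      split_ifs
      · rfl
      · exact pl_zero c
  exact (h univ).symm

lemma pl_inj {v w : Fin 6 × Fin K → ZMod 2} {c : Fin 6} (h : pl v c = pl w c) (a : Fin K) :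
    v (c, a) = w (c, a) := by
  have h1 : ∀ u : Fin 6 × Fin K → ZMod 2, (pl u c).coeff a = u (c, a) := by
    intro u
    unfold pl
    rw [finsetSum_coeff]
    simp only [coeff_C_mul, coeff_X_pow]
    rw [sum_eq_single a]
    · simp
    · intro b _ hb
      rw [if_neg, mul_zero]
      exact fun he => hb (Fin.ext he.symm)
    · simp
  rw [← h1 v, ← h1 w, h]

/-! ### The count -/

lemma card_fib (M : Fin n → (Fin 6 × Fin K → ZMod 2)) (A : Finset (Fin n))
    (I : Finset (Inp n)) (hI : ∀ a ∈ I, ∀ i, i ∉ A → a i = false)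
    (v : Fin 6 × Fin K → ZMod 2) (hv : ∀ a ∈ I, vec M a = v) :
    I.card * 2 ^ Module.finrank (ZMod 2) (Submodule.span (ZMod 2) (M '' A)) ≤ 2 ^ A.card := by
  classical
  let L : (A → ZMod 2) →ₗ[ZMod 2] (Fin 6 × Fin K → ZMod 2) :=
    Fintype.linearCombination (ZMod 2) (fun i : A => M i)
  have hrange : LinearMap.range L = Submodule.span (ZMod 2) (M '' A) := by
    rw [Fintype.range_linearCombination]
    congr 1
    ext u
    simp [Set.mem_image]
  have h1 := LinearMap.finrank_range_add_finrank_ker L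
  rw [hrange, Module.finrank_fintype_fun_eq_card, Fintype.card_coe] at h1
  have hker : Nat.card (LinearMap.ker L) = 2 ^ Module.finrank (ZMod 2) (LinearMap.ker L) := by
    rw [Module.natCard_eq_pow_finrank (K := ZMod 2)]
    simp
  have hle : I.card ≤ Nat.card (LinearMap.ker L) := by
    rcases I.eq_empty_or_nonempty with rfl | ⟨a0, ha0⟩
    · simp
    · let z : Inp n → (A → ZMod 2) := fun a i => if a i then 1 else 0
      have hz : ∀ a ∈ I, L (z a) = v := by
        intro a ha
        rw [← hv a ha]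
        simp only [L, Fintype.linearCombination_apply, z, vec]
        rw [Finset.sum_coe_sort A (fun i => (if a i = true then (1 : ZMod 2) else 0) • M i)]
        rw [← Finset.sum_subset (subset_univ A) (f := fun i => if a i = true then M i else 0)
          (fun i _ hi => by rw [hI a ha i hi]; simp)]
        apply sum_congr rfl
        intro i _
        split_ifs <;> simp
      let g : I → LinearMap.ker L := fun a => ⟨z a - z a0, by
        rw [LinearMap.mem_ker, map_sub, hz a a.2, hz a0 ha0, sub_self]⟩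
      have hg : Function.Injective g := by
        intro a a' h
        have h2 : z a = z a' := by
          have := congrArg Subtype.val h
          simp only [g] at this
          exact sub_left_inj.1 this
        apply Subtype.ext
        funext i
        by_cases hi : i ∈ A
        · have h3 := congrFun h2 ⟨i, hi⟩
          simp only [z] at h3
          cases h4 : (a : Inp n) i <;> cases h5 : (a' : Inp n) i <;> simp [h4, h5] at h3 ⊢
        · rw [hI _ a.2 i hi, hI _ a'.2 i hi]
      have := Nat.card_le_card_of_injective g hg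
      simpa using this
  calc I.card * 2 ^ Module.finrank (ZMod 2) (Submodule.span (ZMod 2) (M '' A))
      ≤ Nat.card (LinearMap.ker L) *
        2 ^ Module.finrank (ZMod 2) (Submodule.span (ZMod 2) (M '' A)) :=
        Nat.mul_le_mul_right _ hle
    _ = 2 ^ A.card := by rw [hker, ← pow_add, add_comm, h1]

/-- the vector over the field of rational functions -/
noncomputable def emb (M : Fin n → (Fin 6 × Fin K → ZMod 2)) (x : Inp n) :
    Fin 6 → RatFunc (ZMod 2) :=
  fun c => algebraMap (ZMod 2)[X] (RatFunc (ZMod 2)) (pl (vec M x) c)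

lemma emb_coord (M : Fin n → (Fin 6 × Fin K → ZMod 2)) (x y : Inp n) (c : Fin 6) :
    (emb M x - emb M y) c = 0 ↔ ∀ a, vec M x (c, a) = vec M y (c, a) := by
  unfold emb
  rw [Pi.sub_apply, sub_eq_zero, (RatFunc.algebraMap_injective (ZMod 2)).eq_iff]
  constructor
  · exact fun h a => pl_inj h a
  · intro h
    unfold pl
    apply sum_congr rfl
    intro a _
    rw [h a]

lemma thin (M : Fin n → (Fin 6 × Fin K → ZMod 2)) (s : ℕ) (A : Finset (Fin n))
    (hr : 6 * K ≤ Module.finrank (ZMod 2) (Submodule.span (ZMod 2) (M '' A)) + s)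
    (I : Finset (Inp n)) (hI : ∀ a ∈ I, ∀ i, i ∉ A → a i = false)
    (V : Submodule (RatFunc (ZMod 2)) (Fin 6 → RatFunc (ZMod 2)))
    (hV : Module.finrank (RatFunc (ZMod 2)) V ≤ 3)
    (h : ∀ a ∈ I, ∀ a' ∈ I, emb M a - emb M a' ∈ V) :
    I.card * 2 ^ (3 * K) ≤ 2 ^ (A.card + s) := by
  classical
  obtain ⟨T, hT, hT'⟩ := coords 3 V hV
  set r := Module.finrank (ZMod 2) (Submodule.span (ZMod 2) (M '' A)) with hrdef
  let φ : Inp n → (T → Fin K → ZMod 2) := fun a t k => vec M a (t, k)
  -- fibres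
  obtain ⟨κ, hκ1, hκ2⟩ : ∃ κ : ℕ, κ * 2 ^ r = 2 ^ A.card ∧ ∀ J : Finset (Inp n), J.card * 2 ^ r ≤
      2 ^ A.card → J.card ≤ κ := by
    have hrA : r ≤ A.card := by
      have h0 := (finrank_span_finset_le_card (R := ZMod 2) (A.image M)).trans card_image_le
      rw [coe_image] at h0
      exact h0
    refine ⟨2 ^ (A.card - r), by rw [← pow_add]; congr 1; omega, fun J hJ => ?_⟩
    have h1 : 2 ^ A.card = 2 ^ (A.card - r) * 2 ^ r := by rw [← pow_add]; congr 1; omega
    rw [h1] at hJ
    exact Nat.le_of_mul_le_mul_right hJ (by positivity)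
  have hfib : ∀ z ∈ I.image φ, (I.filter fun a => φ a = z).card ≤ κ := by
    intro z _
    apply hκ2
    rcases (I.filter fun a => φ a = z).eq_empty_or_nonempty with he | ⟨a0, ha0⟩
    · rw [he]; simp
    · apply card_fib M A _ (fun a ha => hI a (mem_filter.1 ha).1) (vec M a0)
      intro a ha
      obtain ⟨ha1, ha2⟩ := mem_filter.1 ha
      obtain ⟨hb1, hb2⟩ := mem_filter.1 ha0
      have h3 : emb M a - emb M a0 = 0 := by
        apply hT' _ (h a ha1 a0 hb1)
        intro t ht
        rw [emb_coord]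
        intro k
        have := congrFun (congrFun (ha2.trans hb2.symm) ⟨t, ht⟩) k
        exact this
      funext ⟨c, k⟩
      have h4 : (emb M a - emb M a0) c = 0 := by rw [h3]; rfl
      exact (emb_coord M a a0 c).1 h4 k
  have h5 : I.card ≤ κ * (I.image φ).card :=
    card_le_mul_card_image I κ hfib
  have h6 : (I.image φ).card ≤ 2 ^ (3 * K) := by
    calc (I.image φ).card ≤ Fintype.card (T → Fin K → ZMod 2) := card_le_univ _
      _ = (2 ^ K) ^ T.card := by simp
      _ = 2 ^ (K * T.card) := by rw [← pow_mul]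
      _ ≤ 2 ^ (3 * K) := by
          apply Nat.pow_le_pow_right (by norm_num)
          rw [mul_comm]
          exact Nat.mul_le_mul_right _ hT
  calc I.card * 2 ^ (3 * K) ≤ κ * 2 ^ (3 * K) * 2 ^ (3 * K) :=
        Nat.mul_le_mul_right _ (h5.trans (Nat.mul_le_mul_left _ h6))
    _ = κ * 2 ^ (6 * K) := by rw [mul_assoc, ← pow_add]; congr 2; ring
    _ ≤ κ * 2 ^ (r + s) := Nat.mul_le_mul_left _ (Nat.pow_le_pow_right (by norm_num) hr)
    _ = 2 ^ (A.card + s) := by rw [pow_add, ← mul_assoc, hκ1, ← pow_add]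

/-! ### The rectangles -/

lemma vec_split (M : Fin n → (Fin 6 × Fin K → ZMod 2)) (A B : Finset (Fin n))
    (hAB : Disjoint A B) (S : Finset (Inp n)) (hS : ∀ x ∈ S, ∀ y ∈ S, ∀ i, i ∉ A → i ∉ B → x i = y i)
    (x0 : Inp n) (hx0 : x0 ∈ S) (x : Inp n) (hx : x ∈ S) (y : Inp n) :
    vec M (mix B x y) = vec M (rst A x) + vec M (rst B y) + vec M (rst (univ \ (A ∪ B)) x0) := by
  classical
  unfold vec
  rw [← sum_add_distrib, ← sum_add_distrib]
  apply sum_congr rfl
  intro i _
  unfold mix rst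
  by_cases hA : i ∈ A
  · have hB : i ∉ B := disjoint_left.1 hAB hA
    simp [hA, hB]
  · by_cases hB : i ∈ B
    · simp [hA, hB]
    · simp [hA, hB, hS x hx x0 hx0 i hA hB]

/-- the bilinear form -/
noncomputable def bil (u v : Fin 6 → RatFunc (ZMod 2)) : RatFunc (ZMod 2) :=
  u ⬝ᵥ (fun c => v (c + 3))

lemma quad_four (a a' b b' o : Fin 6 → RatFunc (ZMod 2)) (w : RatFunc (ZMod 2))
    (q : (Fin 6 → RatFunc (ZMod 2)) → RatFunc (ZMod 2))
    (hq : ∀ u, q u = u 0 * u 3 + u 1 * u 4 + u 2 * u 5)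
    (h1 : q (a + b + o) = w) (h2 : q (a' + b' + o) = w) (h3 : q (a + b' + o) = w)
    (h4 : q (a' + b + o) = w) : bil (a - a') (b - b') = 0 := by
  have key : bil (a - a') (b - b') = q (a + b + o) + q (a' + b' + o) - q (a + b' + o) -
      q (a' + b + o) := by
    rw [hq, hq, hq, hq]
    unfold bil dotProduct
    rw [Fin.sum_univ_six]
    simp only [Pi.sub_apply, Pi.add_apply]
    have e0 : (0 : Fin 6) + 3 = 3 := rfl
    have e1 : (1 : Fin 6) + 3 = 4 := rfl
    have e2 : (2 : Fin 6) + 3 = 5 := rfl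
    have e3 : (3 : Fin 6) + 3 = 0 := rfl
    have e4 : (4 : Fin 6) + 3 = 1 := rfl
    have e5 : (5 : Fin 6) + 3 = 2 := rfl
    rw [e0, e1, e2, e3, e4, e5]
    ring
  rw [key, h1, h2, h3, h4]
  ring

theorem t_REC : S_REC := by
  classical
  intro n m K s M hM w A B hAB hA hB S hS hw
  rcases S.eq_empty_or_nonempty with rfl | ⟨x0, hx0⟩
  · left; simp
  let VA : Submodule (RatFunc (ZMod 2)) (Fin 6 → RatFunc (ZMod 2)) := Submodule.span (RatFunc (ZMod 2))
    {u | ∃ x ∈ S, ∃ x' ∈ S, u = emb M (rst A x) - emb M (rst A x')}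
  let VB : Submodule (RatFunc (ZMod 2)) (Fin 6 → RatFunc (ZMod 2)) := Submodule.span (RatFunc (ZMod 2))
    {u | ∃ x ∈ S, ∃ x' ∈ S, u = emb M (rst B x) - emb M (rst B x')}
  have hemb : ∀ x ∈ S, ∀ y ∈ S, emb M (mix B x y) =
      emb M (rst A x) + emb M (rst B y) + emb M (rst (univ \ (A ∪ B)) x0) := by
    intro x hx y _
    funext c
    simp only [emb, Pi.add_apply]
    rw [vec_split M A B hAB S hS x0 hx0 x hx y, pl_add, pl_add, map_add, map_add]
  let q : (Fin 6 → RatFunc (ZMod 2)) → RatFunc (ZMod 2) := fun u => u 0 * u 3 + u 1 * u 4 + u 2 * u 5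
  have hq : ∀ x ∈ S, ∀ y ∈ S, q (emb M (rst A x) + emb M (rst B y) +
      emb M (rst (univ \ (A ∪ B)) x0)) = algebraMap (ZMod 2)[X] (RatFunc (ZMod 2)) w := by
    intro x hx y hy
    rw [← hemb x hx y hy, ← hw x hx y hy]
    simp only [q, emb, quad, frm_eq, map_add, map_mul]
  have hperp : ∀ x ∈ S, ∀ x' ∈ S, ∀ y ∈ S, ∀ y' ∈ S,
      bil (emb M (rst A x) - emb M (rst A x')) (emb M (rst B y) - emb M (rst B y')) = 0 :=
    fun x hx x' hx' y hy y' hy' => quad_four _ _ _ _ _ _ q (fun _ => rfl) (hq x hx y hy)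
      (hq x' hx' y' hy') (hq x hx y' hy') (hq x' hx' y hy)
  -- the permutation of the coordinates
  let σ : (Fin 6 → RatFunc (ZMod 2)) ≃ₗ[RatFunc (ZMod 2)] (Fin 6 → RatFunc (ZMod 2)) := LinearEquiv.funCongrLeft (RatFunc (ZMod 2)) (RatFunc (ZMod 2)) (Equiv.addRight (3 : Fin 6))
  have hσ : ∀ v : Fin 6 → RatFunc (ZMod 2), σ v = fun c => v (c + 3) := fun v => rfl
  have hperp2 : ∀ u ∈ VA, ∀ v ∈ VB.map (σ : (Fin 6 → RatFunc (ZMod 2)) →ₗ[RatFunc (ZMod 2)] (Fin 6 → RatFunc (ZMod 2))), u ⬝ᵥ v = 0 := by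
    intro u hu v hv
    obtain ⟨v, hv, rfl⟩ := hv
    induction hu using Submodule.span_induction with
    | mem u hu =>
      obtain ⟨x, hx, x', hx', rfl⟩ := hu
      induction hv using Submodule.span_induction with
      | mem v hv =>
        obtain ⟨y, hy, y', hy', rfl⟩ := hv
        exact hperp x hx x' hx' y hy y' hy'
      | zero => simp
      | add v v' _ _ h1 h2 => rw [map_add, dotProduct_add, h1, h2, add_zero]
      | smul a v _ h1 => rw [map_smul, dotProduct_smul, h1, smul_zero]
    | zero => simp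
    | add u u' _ _ h1 h2 => rw [add_dotProduct, h1, h2, add_zero]
    | smul a u _ h1 => rw [smul_dotProduct, h1, smul_zero]
  have hdim := ortho VA (VB.map (σ : (Fin 6 → RatFunc (ZMod 2)) →ₗ[RatFunc (ZMod 2)] (Fin 6 → RatFunc (ZMod 2)))) hperp2
  have hmap : Module.finrank (RatFunc (ZMod 2)) (VB.map (σ : (Fin 6 → RatFunc (ZMod 2)) →ₗ[RatFunc (ZMod 2)] (Fin 6 → RatFunc (ZMod 2)))) = Module.finrank (RatFunc (ZMod 2)) VB :=
    LinearEquiv.finrank_map_eq σ VB
  rw [hmap, Fintype.card_fin] at hdim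
  have hrst : ∀ (D : Finset (Fin n)), ∀ a ∈ S.image (rst D), ∀ i, i ∉ D → a i = false := by
    intro D a ha i hi
    obtain ⟨x, _, rfl⟩ := mem_image.1 ha
    simp [rst, hi]
  rcases Nat.lt_or_ge 3 (Module.finrank (RatFunc (ZMod 2)) VA) with h3 | h3
  · right
    apply thin M s B (hM B hB) _ (hrst B) VB (by omega)
    intro a ha a' ha'
    obtain ⟨x, hx, rfl⟩ := mem_image.1 ha
    obtain ⟨x', hx', rfl⟩ := mem_image.1 ha'
    exact Submodule.subset_span ⟨x, hx, x', hx', rfl⟩
  · left
    apply thin M s A (hM A hA) _ (hrst A) VA h3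
    intro a ha a' ha'
    obtain ⟨x, hx, rfl⟩ := mem_image.1 ha
    obtain ⟨x', hx', rfl⟩ := mem_image.1 ha'
    exact Submodule.subset_span ⟨x, hx, x', hx', rfl⟩

end Pool.Agent.LLead.LT
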